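import Pool.Agent.PFC.StmtsB6
import Pool.Agent.Helper53_AT8.RK1

/-!
# Squad PFC, row NPH: a modular character vanishes at the nilpotent elements
-/

set_option autoImplicit false

open scoped BigOperators

noncomputable section

namespace Pool.Agent.PFC.H44

open Pool.Agent.Helper51_AWC Pool.Agent.Helper79_WRA Pool.Agent.PP Pool.Agent.PP.KF
open Pool.Agent.PP.K9 Pool.Agent.PP.K9.H97 Pool.Agent.PP.H75 Pool.Agent.PP.T3 Pool.Agent.PP.T2
open Pool.Agent.PP.T8 (Fr rs pw)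

attribute [local instance] Ideal.Quotient.field

theorem ma_pw {F H : Type} [Field F] [Group H] [Fintype H] (x : H → F) (n : ℕ) :
    PP.H74.ma (pw x n) = PP.H74.ma x ^ n := by
  induction n with
  | zero =>
    rw [pow_zero]
    apply MonoidAlgebra.ext
    apply Finsupp.ext
    intro t
    rw [PP.H74.coeff_ma, MonoidAlgebra.one_def, MonoidAlgebra.coeff_single]
    by_cases h : t = 1
    · subst h
      unfold pw
      simp
    · unfold pw
      rw [if_neg h]
      simp [Ne.symm h]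
  | succ n ih =>
    show PP.H74.ma (mulF x (pw x n)) = _
    rw [← PP.H74.ma_mul, ih, pow_succ']

/-- the general form -/
theorem gen {F : Type} [Field F] {ℓ : ℕ} [Fact ℓ.Prime] [CharP F ℓ] {H : Type}
    [Group H] [Fintype H] (f : H → F) (hfc : ∀ a b, f (a * b) = f (b * a))
    (hfp : ∀ (t : H) (k : ℕ), f (t ^ ℓ ^ k) = f t ^ ℓ ^ k) (x : H → F) (n : ℕ)
    (hx : pw x n = 0) : ∑ h, x h * f h = 0 := by
  have hexp : ExpChar F ℓ := ExpChar.prime Fact.out
  have hpow : ∀ k : ℕ, PP.H74.fl f (PP.H74.ma x ^ ℓ ^ k) =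
      (PP.H74.fl f (PP.H74.ma x)) ^ ℓ ^ k := by
    intro k
    have h1 := PP.H74.fl_pow (Fact.out : ℓ.Prime) hfc x 1 k
    have h2 : (MonoidAlgebra.single (1 : H) (1 : F)) = 1 := rfl
    rw [h2, mul_one] at h1
    rw [h1, PP.H74.fl_ma]
    have h3 : (∑ t, x t * f t) ^ ℓ ^ k = ∑ t, (x t * f t) ^ ℓ ^ k := by
      rw [← iterateFrobenius_def, map_sum]
      rfl
    rw [h3]
    refine Finset.sum_congr rfl fun t _ => ?_
    rw [mul_one, mul_pow, hfp t k]
  have h0 : PP.H74.ma x ^ n = 0 := by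
    rw [← ma_pw, hx, PP.H74.ma_zero]
  have hn : n ≤ ℓ ^ n := (Nat.lt_pow_self (Fact.out : ℓ.Prime).one_lt).le
  have h1 : PP.H74.ma x ^ ℓ ^ n = 0 := pow_eq_zero_of_le hn h0
  have h2 := hpow n
  rw [h1, map_zero] at h2
  have h3 : PP.H74.fl f (PP.H74.ma x) = 0 :=
    (pow_eq_zero_iff (pow_ne_zero n (Fact.out : ℓ.Prime).ne_zero)).mp h2.symm
  rwa [PP.H74.fl_ma] at h3

theorem nph : NphStmt := by
  intro ℓ hℓ M hM hlM H _ _ κ hκ
  have hF : GoodF ℓ (FF M) := H50.fld ℓ hℓ.out M hlM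
  have hch : CharP (FF M) ℓ := hF.char
  have hFH : Fintype H := Fintype.ofFinite H
  have hfc : ∀ a b : H, rr M (κ (a * b)) = rr M (κ (b * a)) := by
    intro a b
    have h1 : κ (a * b) = κ (b * a) := by
      rw [← irr_conj hκ (b * a) a]
      congr 1
      group
    rw [h1]
  have hfp : ∀ (t : H) (k : ℕ), rr M (κ (t ^ ℓ ^ k)) = rr M (κ t) ^ ℓ ^ k := by
    intro t k
    rw [rr_of_int (irr_integral hκ _), rr_of_int (irr_integral hκ _)]
    exact H15.vpow ℓ M hlM H κ hκ t k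
  constructor
  · intro x n hx
    rw [finsum_eq_sum_of_fintype]
    exact gen (ℓ := ℓ) (fun h => rr M (κ h)) hfc hfp x n hx
  · intro a b
    rw [finsum_eq_sum_of_fintype, finsum_eq_sum_of_fintype]
    have h1 := PP.H74.fl_mul_comm (f := fun h => rr M (κ h)) hfc (PP.H74.ma a) (PP.H74.ma b)
    rw [PP.H74.ma_mul, PP.H74.ma_mul, PP.H74.fl_ma, PP.H74.fl_ma] at h1
    exact h1

end Pool.Agent.PFC.H44
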