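import Pool.Agent.PFC.StmtsB5c

/-!
# Squad PFC, row FRT: the form on `N ⊗ X`
-/

set_option autoImplicit false

open scoped BigOperators TensorProduct

noncomputable section

namespace Pool.Agent.PFC.B5c.H44

open Pool.Agent.PFC Pool.Agent.PFC.B5c

section

variable {F A B : Type} [Field F] [Ring A] [Algebra F A] [Ring B] [Algebra F B] {n : ℕ}

/-- `x ⊗ a ↦ tr(e x) lam(a)` -/
def lamT (e : A ≃ₐ[F] Matrix (Fin n) (Fin n) F) (lam : B →ₗ[F] F) : A ⊗[F] B →ₗ[F] F :=
  LinearMap.mul' F F ∘ₗ TensorProduct.map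
    ((Matrix.traceLinearMap (Fin n) F F) ∘ₗ e.toLinearMap) lam

theorem lamT_tmul (e : A ≃ₐ[F] Matrix (Fin n) (Fin n) F) (lam : B →ₗ[F] F) (x : A) (b : B) :
    lamT e lam (x ⊗ₜ[F] b) = (e x).trace * lam b := rfl

theorem lamT_sym (e : A ≃ₐ[F] Matrix (Fin n) (Fin n) F) (lam : B →ₗ[F] F)
    (hs : ∀ a b, lam (a * b) = lam (b * a)) (s t : A ⊗[F] B) :
    lamT e lam (s * t) = lamT e lam (t * s) := by
  induction s using TensorProduct.induction_on with
  | zero => rw [zero_mul, mul_zero]
  | add s s' h h' => rw [add_mul, mul_add, map_add, map_add, h, h']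
  | tmul x a =>
    induction t using TensorProduct.induction_on with
    | zero => rw [zero_mul, mul_zero]
    | add t t' h h' => rw [add_mul, mul_add, map_add, map_add, h, h']
    | tmul y b =>
      rw [Algebra.TensorProduct.tmul_mul_tmul, Algebra.TensorProduct.tmul_mul_tmul, lamT_tmul,
        lamT_tmul, map_mul e x y, map_mul e y x, Matrix.trace_mul_comm, hs]

/-- expansion in the matrix units -/
theorem expand (e : A ≃ₐ[F] Matrix (Fin n) (Fin n) F) (t : A ⊗[F] B) :
    ∃ a : Fin n → Fin n → B, t = ∑ i, ∑ j, e.symm (Matrix.single i j 1) ⊗ₜ[F] a i j := by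
  induction t using TensorProduct.induction_on with
  | zero => exact ⟨fun _ _ => 0, by simp⟩
  | add s t hs ht =>
    obtain ⟨a, ha⟩ := hs
    obtain ⟨b, hb⟩ := ht
    refine ⟨fun i j => a i j + b i j, ?_⟩
    rw [ha, hb, ← Finset.sum_add_distrib]
    apply Finset.sum_congr rfl
    intro i _
    rw [← Finset.sum_add_distrib]
    apply Finset.sum_congr rfl
    intro j _
    rw [TensorProduct.tmul_add]
  | tmul x b =>
    refine ⟨fun i j => e x i j • b, ?_⟩
    have h1 : x = ∑ i, ∑ j, e x i j • e.symm (Matrix.single i j 1) := by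
      apply e.injective
      rw [map_sum]
      conv_lhs => rw [Matrix.matrix_eq_sum_single (e x)]
      apply Finset.sum_congr rfl
      intro i _
      rw [map_sum]
      apply Finset.sum_congr rfl
      intro j _
      rw [map_smul, e.apply_symm_apply, Matrix.smul_single, smul_eq_mul, mul_one]
    conv_lhs => rw [h1]
    rw [TensorProduct.sum_tmul]
    apply Finset.sum_congr rfl
    intro i _
    rw [TensorProduct.sum_tmul]
    apply Finset.sum_congr rfl
    intro j _
    rw [TensorProduct.smul_tmul]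

theorem lamT_nd (e : A ≃ₐ[F] Matrix (Fin n) (Fin n) F) (lam : B →ₗ[F] F)
    (hn : ∀ a, (∀ b, lam (a * b) = 0) → a = 0) (t : A ⊗[F] B)
    (ht : ∀ s, lamT e lam (t * s) = 0) : t = 0 := by
  obtain ⟨a, ha⟩ := expand e t
  have h0 : ∀ k l, a l k = 0 := by
    intro k l
    apply hn
    intro b
    have h1 := ht (e.symm (Matrix.single k l 1) ⊗ₜ[F] b)
    rw [ha, Finset.sum_mul, map_sum] at h1
    have h2 : ∀ i, lamT e lam ((∑ j, e.symm (Matrix.single i j 1) ⊗ₜ[F] a i j) *
        e.symm (Matrix.single k l 1) ⊗ₜ[F] b) = if i = l then lam (a i k * b) else 0 := by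
      intro i
      rw [Finset.sum_mul, map_sum, Finset.sum_eq_single k]
      · rw [Algebra.TensorProduct.tmul_mul_tmul, lamT_tmul, map_mul, e.apply_symm_apply,
          e.apply_symm_apply, Matrix.single_mul_single_same, mul_one]
        by_cases h : i = l
        · subst h
          rw [if_pos rfl, Matrix.trace_single_eq_same, one_mul]
        · rw [if_neg h, Matrix.trace_single_eq_of_ne _ _ _ h, zero_mul]
      · intro j _ hj
        rw [Algebra.TensorProduct.tmul_mul_tmul, lamT_tmul, map_mul, e.apply_symm_apply,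
          e.apply_symm_apply, Matrix.single_mul_single_of_ne _ _ _ _ hj, Matrix.trace_zero,
          zero_mul]
      · intro h
        exact absurd (Finset.mem_univ k) h
    rw [Finset.sum_congr rfl fun i _ => h2 i, Finset.sum_ite_eq' Finset.univ l] at h1
    rw [if_pos (Finset.mem_univ l)] at h1
    exact h1
  rw [ha]
  apply Finset.sum_eq_zero
  intro i _
  apply Finset.sum_eq_zero
  intro j _
  rw [h0 j i, TensorProduct.tmul_zero]

/-- the trace of a matrix of order a power of the characteristic -/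
theorem trace_unip (ℓ : ℕ) [Fact ℓ.Prime] [CharP F ℓ] (hn : (n : F) ≠ 0)
    (m : Matrix (Fin n) (Fin n) F) (k : ℕ) (hm : m ^ ℓ ^ k = 1) : m.trace = (n : F) := by
  have hn0 : n ≠ 0 := by
    rintro rfl
    exact hn (by simp)
  have : Nonempty (Fin n) := ⟨⟨0, Nat.pos_of_ne_zero hn0⟩⟩
  have h1 : (m - 1) ^ ℓ ^ k = 0 := by
    have : CharP (Matrix (Fin n) (Fin n) F) ℓ := Matrix.charP ℓ
    rw [sub_pow_char_pow_of_commute ℓ k (Commute.one_right m), hm, one_pow, sub_self]
  have h2 : IsNilpotent (m - 1) := ⟨_, h1⟩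
  have h3 := Matrix.isNilpotent_trace_of_isNilpotent h2
  have h4 : (m - 1).trace = 0 := h3.eq_zero
  rw [Matrix.trace_sub, Matrix.trace_one, Fintype.card_fin, sub_eq_zero] at h4
  exact h4

end

theorem frt : FrtStmt := by
  intro ℓ _ F V _ _ _ _ N X n hV hn hN lam hlam
  obtain ⟨e⟩ := hN
  refine ⟨lamT e lam, lamT_sym e lam hlam.sym, lamT_nd e lam hlam.nd, ?_⟩
  have h1 : ∀ u : V, lamT e lam ((N.tens X).ι u) = (n : F) * lam (X.ι u) := by
    intro u
    have h2 : lamT e lam ((N.tens X).ι u) = (e (N.ι u)).trace * lam (X.ι u) := rfl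
    rw [h2]
    obtain ⟨k, hk⟩ := hV u
    rw [trace_unip ℓ hn (e (N.ι u)) k (by rw [← map_pow, ← map_pow, hk, map_one, map_one])]
  have h3 : lamT e lam (∑ u : V, (N.ι u ⊗ₜ[F] X.ι u : N.A ⊗[F] X.A)) =
      (n : F) * lam (∑ u : V, X.ι u) := by
    rw [map_sum, map_sum, Finset.mul_sum]
    exact Finset.sum_congr rfl fun u _ => h1 u
  have h4 : (n : F) * lam (∑ u : V, X.ι u) ≠ 0 := mul_ne_zero hn hlam.nz
  rw [← h3] at h4
  exact h4

end Pool.Agent.PFC.B5c.H44
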