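import Pool.Agent.PFC.StmtsB4b
import Pool.Agent.PFC.B4.Key

/-!
# Squad PFC, row QDI: dimensions modulo `ℓ`
-/

set_option autoImplicit false

open scoped BigOperators TensorProduct

noncomputable section

namespace Pool.Agent.PFC.H44

open Pool.Agent.PFC

/-- the trace of a relatively projective endomorphism is zero -/
theorem trace_PT (ℓ : ℕ) [Fact ℓ.Prime] {F V M : Type} [Field F] [CharP F ℓ] [CommGroup V]
    [Finite V] [AddCommGroup M] [Module F M] [Module.Finite F M] (ρ : V →* (M →ₗ[F] M))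
    (Q : Subgroup V) (hV : IsPGroup ℓ V) (T : M →ₗ[F] M) (hT : T ∈ PT ρ Q) :
    LinearMap.trace F M T = 0 := by
  have hsub : PT ρ Q ≤ LinearMap.ker (LinearMap.trace F M) := by
    apply Submodule.span_le.2
    rintro T ⟨K, S, h, hK, hS, -, hT⟩
    rw [SetLike.mem_coe, LinearMap.mem_ker]
    have h1 : T = ∑ x ∈ S, ρ x * (h * ρ x⁻¹) := by
      ext m
      rw [hT m, LinearMap.sum_apply]
      rfl
    rw [h1, map_sum]
    have h2 : ∀ x ∈ S, LinearMap.trace F M (ρ x * (h * ρ x⁻¹)) = LinearMap.trace F M h := by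
      intro x _
      rw [LinearMap.trace_mul_comm, mul_assoc, ← map_mul, inv_mul_cancel, map_one, mul_one]
    rw [Finset.sum_congr rfl h2, Finset.sum_const, nsmul_eq_mul]
    have h3 := card_tv K Q hK.le S hS
    obtain ⟨a, ha⟩ := (hV.to_subgroup K).exists_card_eq
    obtain ⟨b, hb⟩ := (hV.to_subgroup Q).exists_card_eq
    have h4 : (ℓ : ℕ) ∣ S.card := by
      rw [ha, hb] at h3
      have h5 : S.card ∣ ℓ ^ b := ⟨_, h3.symm⟩
      obtain ⟨c, -, hc⟩ := (Nat.dvd_prime_pow (Fact.out : ℓ.Prime)).1 h5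
      rcases Nat.eq_zero_or_pos c with h0 | h0
      · exfalso
        rw [h0, pow_zero] at hc
        rw [hc, one_mul] at h3
        have h6 : Nat.card K = Nat.card Q := by rw [ha, hb, h3]
        have h7 : K = Q := by
          apply SetLike.coe_injective
          apply Set.eq_of_subset_of_ncard_le hK.le
          rw [← Nat.card_coe_set_eq, ← Nat.card_coe_set_eq]
          exact h6.ge
        exact hK.ne h7
      · rw [hc]
        exact dvd_pow_self _ h0.ne'
    rw [(CharP.cast_eq_zero_iff F ℓ S.card).2 h4, zero_mul]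
  exact hsub hT

theorem qdi : QdiStmt := by
  intro ℓ _ F V M N _ _ _ _ _ _ _ _ _ _ ρ ρ' Q β s hV h
  have h1 := trace_PT ℓ ρ Q hV _ h.hg
  rw [map_sub, sub_eq_zero, LinearMap.trace_id] at h1
  have h2 : LinearMap.trace F M (s ∘ₗ β) = LinearMap.trace F N (β ∘ₗ s) :=
    LinearMap.trace_comp_comm' _ _
  have h3 : β ∘ₗ s = LinearMap.id := by
    ext n
    exact h.bs n
  rw [h1, h2, h3, LinearMap.trace_id]

end Pool.Agent.PFC.H44
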