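import Pool.Agent.PFC.StmtsB2

/-!
# Squad PFC, row BRI: irreducible representations over an algebraically closed field
-/

set_option autoImplicit false

open scoped BigOperators

noncomputable section

namespace Pool.Agent.PFC.B2.H44

open Pool.Agent.PFC Pool.Agent.PFC.B1 Pool.Agent.PFC.B2

section gen

variable {F A M N : Type} [Field F] [Ring A] [Algebra F A] [AddCommGroup M] [Module F M]
  [AddCommGroup N] [Module F N]

theorem sc' (ρ : Rp F A F M) (r : F) (x : M) : ρ.ρ (algebraMap F A r) x = r • x := ρ.sc r x

/-- a functional which is one at a nonzero vector -/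
theorem exFun (v : M) (hv : v ≠ 0) : ∃ φ : M →ₗ[F] F, φ v = 1 := by
  have h1 : ¬ ∀ φ : Module.Dual F M, φ v = 0 := fun h =>
    hv ((Module.forall_dual_apply_eq_zero_iff F v).1 h)
  push Not at h1
  obtain ⟨φ, hφ⟩ := h1
  exact ⟨(φ v)⁻¹ • φ, by rw [LinearMap.smul_apply, smul_eq_mul, inv_mul_cancel₀ hφ]⟩

/-- Burnside -/
theorem burnside [IsAlgClosed F] [Module.Finite F M] (ρ : Rp F A F M) (h : Irr ρ) :
    Function.Surjective ρ.ρ := by
  let _ : Module A M := Module.compHom M ρ.ρ
  have hsm : ∀ (a : A) (m : M), a • m = ρ.ρ a m := fun _ _ => rfl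
  have : IsScalarTower F A M := by
    constructor
    intro c a m
    rw [hsm, hsm, Algebra.smul_def, map_mul, Module.End.mul_apply, sc']
  have : Nontrivial M := h.1
  have : IsSimpleModule A M := by
    have : Nontrivial (Submodule A M) := (Submodule.nontrivial_iff A).2 h.1
    refine isSimpleModule_iff A M |>.2 ⟨?_⟩
    intro W
    rcases h.2 (W.restrictScalars F) (fun a w hw => W.smul_mem a hw) with h1 | h1
    · left
      rw [eq_bot_iff]
      intro x hx
      have h2 : x ∈ W.restrictScalars F := hx
      rw [h1] at h2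
      exact h2
    · right
      rw [eq_top_iff]
      intro x _
      have h2 : x ∈ W.restrictScalars F := by
        rw [h1]
        trivial
      exact h2
  have hs := IsSimpleModule.algebraMap_end_bijective_of_isAlgClosed (A := A) (V := M) F
  have : Module.Finite (Module.End A M) M := by
    exact Module.Finite.of_restrictScalars_finite F (Module.End A M) M
  intro g
  have hj := Module.Finite.toModuleEnd_moduleEnd_surjective (R := A) (M := M)
  let g' : Module.End (Module.End A M) M :=
    { toFun := g
      map_add' := g.map_add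
      map_smul' := by
        intro φ m
        obtain ⟨c, rfl⟩ := hs.2 φ
        exact g.map_smul c m }
  obtain ⟨r, hr⟩ := hj g'
  refine ⟨r, ?_⟩
  ext m
  have h3 : (Module.toModuleEnd (Module.End A M) (S := A) M r) m = g' m := by rw [hr]
  exact h3

/-- irreducible representations with the same kernel are isomorphic -/
theorem iso_of_ker (sch : SchStmt) [IsAlgClosed F] [Module.Finite F M] (ρ : Rp F A F M)
    (σ : Rp F A F N) (hρ : Irr ρ) (hσ : Irr σ) (hk : ∀ a, ρ.ρ a = 0 ↔ σ.ρ a = 0) : Iso ρ σ := by
  obtain ⟨v0, hv0⟩ := @exists_ne M hρ.1 0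
  obtain ⟨φ, hφ⟩ := exFun (F := F) v0 hv0
  have hb := burnside ρ hρ
  choose a ha using fun v : M => hb (φ.smulRight v)
  have hk2 : ∀ x y, ρ.ρ x = ρ.ρ y → σ.ρ x = σ.ρ y := by
    intro x y h
    rw [← sub_eq_zero, ← map_sub] at h ⊢
    exact (hk _).1 h
  have he : σ.ρ (a v0) ≠ 0 := by
    intro h
    have h1 := (hk _).2 h
    rw [ha] at h1
    have h2 : (φ.smulRight v0) v0 = 0 := by rw [h1]; rfl
    rw [LinearMap.smulRight_apply, hφ, one_smul] at h2
    exact hv0 h2
  obtain ⟨w0, hw0⟩ : ∃ w0, σ.ρ (a v0) w0 ≠ 0 := by
    by_contra hcon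
    push Not at hcon
    exact he (LinearMap.ext hcon)
  let f : M →ₗ[F] N :=
    { toFun := fun v => σ.ρ (a v) w0
      map_add' := by
        intro v v'
        have h1 : σ.ρ (a (v + v')) = σ.ρ (a v + a v') := by
          apply hk2
          rw [map_add, ha, ha, ha]
          ext x
          simp [smul_add]
        rw [h1, map_add]
        rfl
      map_smul' := by
        intro c v
        have h1 : σ.ρ (a (c • v)) = σ.ρ (algebraMap F A c * a v) := by
          apply hk2
          rw [map_mul, ha, ha]
          ext x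
          rw [Module.End.mul_apply, sc', LinearMap.smulRight_apply, LinearMap.smulRight_apply,
            smul_comm]
        rw [h1, map_mul, Module.End.mul_apply, sc']
        rfl }
  have hf : IsHom ρ σ f := by
    intro x v
    have h1 : σ.ρ (a (ρ.ρ x v)) = σ.ρ (x * a v) := by
      apply hk2
      rw [map_mul, ha, ha]
      ext y
      rw [Module.End.mul_apply, LinearMap.smulRight_apply, LinearMap.smulRight_apply, map_smul]
    show σ.ρ (a (ρ.ρ x v)) w0 = σ.ρ x (σ.ρ (a v) w0)
    rw [h1, map_mul]
    rfl
  have hf0 : f ≠ 0 := by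
    intro h
    apply hw0
    have h1 : f v0 = 0 := by rw [h]; rfl
    exact h1
  have hbij := sch F A F M N ρ σ f hρ hσ hf hf0
  exact ⟨LinearEquiv.ofBijective f hbij, hf⟩

end gen

theorem bri (fml : FmlStmt) (sch : SchStmt) : BriStmt := by
  intro F A _ _ _ _ _
  obtain ⟨l, n, S, hirr, hcpl, hinj⟩ := fml F A F
  have hg : Function.Injective (fun i => {a : A | (S i).ρ a = 0}) := by
    intro i j hij
    apply hinj
    apply iso_of_ker sch _ _ (hirr i) (hirr j)
    intro a
    exact Set.ext_iff.1 hij a
  have hr : kers F A = Set.range (fun i => {a : A | (S i).ρ a = 0}) := by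
    apply Set.Subset.antisymm
    · rintro K ⟨m, ρ, hm, hρ, rfl⟩
      obtain ⟨ρ', hρ'⟩ : ∃ ρ' : Rp F A F (Fin m → F), ∀ a, ρ'.ρ a = Matrix.toLin' (ρ a) := by
        refine ⟨⟨((Matrix.toLinAlgEquiv' : Matrix (Fin m) (Fin m) F ≃ₐ[F] _).toAlgHom.comp
          ρ).toRingHom, ?_⟩, ?_⟩
        · intro r x
          show (Matrix.toLinAlgEquiv' (ρ (algebraMap F A r))) x = r • x
          rw [AlgHom.commutes, AlgEquiv.commutes]
          rfl
        · intro a
          rfl
      have hnt : Nontrivial (Fin m → F) := by
        have : Nonempty (Fin m) := ⟨⟨0, hm⟩⟩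
        infer_instance
      have hi : Irr ρ' := by
        refine ⟨hnt, ?_⟩
        intro W hW
        by_cases h0 : W = ⊥
        · exact Or.inl h0
        · right
          obtain ⟨w, hw, hw0⟩ := (Submodule.ne_bot_iff _).1 h0
          obtain ⟨φ, hφ⟩ := exFun (F := F) w hw0
          rw [eq_top_iff]
          intro v _
          obtain ⟨a, ha⟩ := hρ (LinearMap.toMatrix' (φ.smulRight v))
          have h1 := hW a w hw
          rw [hρ', ha, Matrix.toLin'_toMatrix', LinearMap.smulRight_apply, hφ, one_smul] at h1
          exact h1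
      obtain ⟨i, e, he⟩ := hcpl _ ρ' hi
      refine ⟨i, ?_⟩
      ext a
      show (S i).ρ a = 0 ↔ ρ a = 0
      rw [← (Matrix.toLin' (R := F) (m := Fin m) (n := Fin m)).map_eq_zero_iff, ← hρ']
      constructor
      · intro h
        apply LinearMap.ext
        intro x
        apply e.injective
        have h1 := he a x
        rw [h] at h1
        rw [LinearMap.zero_apply, map_zero]
        exact h1
      · intro h
        apply LinearMap.ext
        intro y
        have h1 := he a (e.symm y)
        rw [h] at h1
        have h2 : e.toLinearMap (e.symm y) = y := e.apply_symm_apply y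
        rw [h2] at h1
        rw [← h1]
        exact e.map_zero
    · rintro K ⟨i, rfl⟩
      have hn : 0 < n i := by
        apply Nat.pos_of_ne_zero
        intro h0
        obtain ⟨x, y, hxy⟩ := (hirr i).1
        apply hxy
        funext j
        have := j.2
        omega
      let ρ : A →ₐ[F] Module.End F (Fin (n i) → F) :=
        { (S i).ρ with
          commutes' := by
            intro r
            apply LinearMap.ext
            intro x
            exact sc' (S i) r x }
      refine ⟨n i, (LinearMap.toMatrixAlgEquiv' :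
        _ ≃ₐ[F] Matrix (Fin (n i)) (Fin (n i)) F).toAlgHom.comp ρ, hn, ?_, ?_⟩
      · intro y
        obtain ⟨z, rfl⟩ := (LinearMap.toMatrixAlgEquiv' :
          _ ≃ₐ[F] Matrix (Fin (n i)) (Fin (n i)) F).surjective y
        obtain ⟨x, rfl⟩ := burnside (S i) (hirr i) z
        exact ⟨x, rfl⟩
      · ext a
        show (S i).ρ a = 0 ↔ LinearMap.toMatrixAlgEquiv' ((S i).ρ a) = 0
        exact (map_eq_zero_iff _ (AlgEquiv.injective _)).symm
  have hl : ls F A = l := by
    unfold ls
    rw [hr, ← Set.image_univ, Set.ncard_image_of_injective _ hg, Set.ncard_univ, Nat.card_fin]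
  rw [hl]
  exact ⟨n, S, hcpl⟩

end Pool.Agent.PFC.B2.H44
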