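import Pool.Agent.PFC.StmtsB1

/-!
Squad PFC, row COH: coinduction preserves Higman projectivity.
-/

set_option autoImplicit false

namespace Pool.Agent.PFC.B1.H44

open Pool.Agent.PFC.B1

section

variable {R Γ A I J k S : Type} [CommRing R] [Ring Γ] [Algebra R Γ] [Ring A] [Algebra R A]
  [Fintype I] [Fintype J] [CommRing k] [Algebra R k] [AddCommGroup S] [Module k S]

theorem rp_smul (σ : Rp R Γ k S) (r : R) (u : Γ) (w : S) :
    σ.ρ (r • u) w = algebraMap R k r • σ.ρ u w := by
  rw [Algebra.smul_def, map_mul, Module.End.mul_apply, σ.sc]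

theorem co_sum {j : Γ →ₐ[R] A} {σ : Rp R Γ k S} (h : Co j σ) {K : Type} [Fintype K]
    (r : K → R) (y : K → A) :
    h.1 (∑ l, r l • y l) = ∑ l, algebraMap R k (r l) • h.1 (y l) := by
  have h1 : h.1 (∑ l, r l • y l) = ∑ l, h.1 (r l • y l) :=
    map_sum (AddMonoidHom.mk' h.1 h.2.1) _ _
  rw [h1]
  apply Finset.sum_congr rfl
  intro l _
  have h2 := h.2.2 (algebraMap R Γ (r l)) (y l)
  rw [j.commutes, ← Algebra.smul_def, σ.sc] at h2
  exact h2

/-- the Casimir identity in the form needed here -/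
theorem cas (c : FS R Γ I) (d : FS R A J) (j : Γ →ₐ[R] A) (σ : Rp R Γ k S) (γ : Γ) (x : A)
    (w : S) : ∑ i, algebraMap R k (d.lam (j (c.b' i) * (j γ * x))) • σ.ρ (c.b i) w =
      σ.ρ γ (∑ i, algebraMap R k (d.lam (j (c.b' i) * x)) • σ.ρ (c.b i) w) := by
  have h1 : ∀ i, algebraMap R k (d.lam (j (c.b' i) * (j γ * x))) =
      ∑ m, algebraMap R k (c.lam (c.b' i * γ * c.b m)) *
        algebraMap R k (d.lam (j (c.b' m) * x)) := by
    intro i
    rw [← mul_assoc, ← map_mul]
    conv_lhs => rw [← c.h2 (c.b' i * γ)]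
    rw [map_sum, Finset.sum_mul, map_sum, map_sum]
    apply Finset.sum_congr rfl
    intro m _
    rw [map_smul, smul_mul_assoc, map_smul, smul_eq_mul, map_mul]
  have h2 : ∀ m, ∑ i, algebraMap R k (c.lam (c.b' i * γ * c.b m)) • σ.ρ (c.b i) w =
      σ.ρ γ (σ.ρ (c.b m) w) := by
    intro m
    rw [← Module.End.mul_apply, ← map_mul]
    conv_rhs => rw [← c.h1 (γ * c.b m)]
    rw [map_sum, LinearMap.sum_apply]
    apply Finset.sum_congr rfl
    intro i _
    rw [rp_smul, mul_assoc]
  calc ∑ i, algebraMap R k (d.lam (j (c.b' i) * (j γ * x))) • σ.ρ (c.b i) w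
      = ∑ i, ∑ m, algebraMap R k (d.lam (j (c.b' m) * x)) •
          (algebraMap R k (c.lam (c.b' i * γ * c.b m)) • σ.ρ (c.b i) w) := by
        apply Finset.sum_congr rfl
        intro i _
        rw [h1 i, Finset.sum_smul]
        apply Finset.sum_congr rfl
        intro m _
        rw [smul_smul, mul_comm]
    _ = ∑ m, algebraMap R k (d.lam (j (c.b' m) * x)) •
          ∑ i, (algebraMap R k (c.lam (c.b' i * γ * c.b m)) • σ.ρ (c.b i) w) := by
        rw [Finset.sum_comm]
        apply Finset.sum_congr rfl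
        intro m _
        rw [Finset.smul_sum]
    _ = _ := by
        rw [map_sum]
        apply Finset.sum_congr rfl
        intro m _
        rw [h2 m, map_smul]

end

theorem coh : CohStmt := by
  intro R Γ A I J k S _ _ _ _ _ _ _ _ _ _ _ c d j σ hHP
  obtain ⟨b, hb⟩ := hHP
  let B : Co j σ →ₗ[k] Co j σ :=
    { toFun := fun h => ⟨fun x => ∑ i, algebraMap R k (d.lam (j (c.b' i) * x)) •
          σ.ρ (c.b i) (b (h.1 1)),
        fun x y => by
          show ∑ i, _ = ∑ i, _ + ∑ i, _
          rw [← Finset.sum_add_distrib]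
          apply Finset.sum_congr rfl
          intro i _
          rw [mul_add, map_add, map_add, add_smul],
        fun γ x => cas c d j σ γ x (b (h.1 1))⟩
      map_add' := fun f g => by
        apply Subtype.ext; funext x
        show ∑ i, algebraMap R k (d.lam (j (c.b' i) * x)) • σ.ρ (c.b i) (b (f.1 1 + g.1 1)) =
          ∑ i, algebraMap R k (d.lam (j (c.b' i) * x)) • σ.ρ (c.b i) (b (f.1 1)) +
          ∑ i, algebraMap R k (d.lam (j (c.b' i) * x)) • σ.ρ (c.b i) (b (g.1 1))
        rw [← Finset.sum_add_distrib]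
        apply Finset.sum_congr rfl
        intro i _
        rw [map_add, map_add, smul_add]
      map_smul' := fun r f => by
        apply Subtype.ext; funext x
        show ∑ i, algebraMap R k (d.lam (j (c.b' i) * x)) • σ.ρ (c.b i) (b (r • f.1 1)) =
          r • ∑ i, algebraMap R k (d.lam (j (c.b' i) * x)) • σ.ρ (c.b i) (b (f.1 1))
        rw [Finset.smul_sum]
        apply Finset.sum_congr rfl
        intro i _
        rw [map_smul, map_smul, smul_comm] }
  refine ⟨B, ?_⟩
  apply LinearMap.ext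
  intro h
  apply Subtype.ext
  funext x
  have hval : ((d.tr (coRp j σ) (coRp j σ) B) h).1 x =
      ∑ l, ∑ i, algebraMap R k (d.lam (j (c.b' i) * (x * d.b l))) •
        σ.ρ (c.b i) (b (h.1 (1 * d.b' l))) := by
    unfold FS.tr
    rw [LinearMap.sum_apply, Submodule.coe_sum, Finset.sum_apply]
    rfl
  have hb' : ∀ s : S, ∑ i, σ.ρ (c.b i) (b (σ.ρ (c.b' i) s)) = s := by
    intro s
    have h1 := congrArg (fun f : S →ₗ[k] S => f s) hb
    unfold FS.tr at h1
    simpa only [LinearMap.sum_apply, LinearMap.comp_apply, LinearMap.id_apply] using h1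
  rw [hval, Finset.sum_comm]
  show _ = h.1 x
  rw [← hb' (h.1 x)]
  apply Finset.sum_congr rfl
  intro i _
  have h2 : h.1 (j (c.b' i) * x) =
      ∑ l, algebraMap R k (d.lam (j (c.b' i) * x * d.b l)) • h.1 (d.b' l) := by
    conv_lhs => rw [← d.h2 (j (c.b' i) * x)]
    exact co_sum h _ _
  rw [← h.2.2, h2, map_sum, map_sum]
  apply Finset.sum_congr rfl
  intro l _
  rw [one_mul, map_smul, map_smul, mul_assoc]

end Pool.Agent.PFC.B1.H44
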