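import Pool.Agent.PFC.StmtsB1

/-!
Squad PFC, row SUC: successive approximation over `F[[t]]`.
-/

set_option autoImplicit false

namespace Pool.Agent.PFC.B1.H44

open Pool.Agent.PFC.B1

/-- a series `∑ t ^ n c n` of power series -/
theorem psum {F : Type} [Field F] (c : ℕ → PowerSeries F) : ∃ C : PowerSeries F, ∀ N : ℕ,
    ∃ w : PowerSeries F, C = ∑ n ∈ Finset.range N, PowerSeries.X ^ n * c n +
      PowerSeries.X ^ N * w := by
  refine ⟨PowerSeries.mk fun m => PowerSeries.coeff m
    (∑ n ∈ Finset.range (m + 1), PowerSeries.X ^ n * c n), ?_⟩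
  intro N
  have h : PowerSeries.X ^ N ∣ (PowerSeries.mk fun m => PowerSeries.coeff m
      (∑ n ∈ Finset.range (m + 1), PowerSeries.X ^ n * c n)) -
      ∑ n ∈ Finset.range N, PowerSeries.X ^ n * c n := by
    rw [PowerSeries.X_pow_dvd_iff]
    intro m hm
    rw [map_sub, PowerSeries.coeff_mk, sub_eq_zero, map_sum, map_sum]
    apply Finset.sum_subset
    · intro n hn
      rw [Finset.mem_range] at hn ⊢
      omega
    · intro n _ hn
      rw [Finset.mem_range, not_lt] at hn
      rw [PowerSeries.coeff_X_pow_mul', if_neg (by omega)]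
  obtain ⟨w, hw⟩ := h
  exact ⟨w, by rw [← hw]; ring⟩

/-- a series `∑ t ^ n z n` in a finite free module -/
theorem msum {F M : Type} [Field F] [AddCommGroup M] [Module (PowerSeries F) M]
    [Module.Finite (PowerSeries F) M] [Module.Free (PowerSeries F) M] (z : ℕ → M) :
    ∃ Z : M, ∀ N : ℕ, ∃ w : M,
      Z = ∑ n ∈ Finset.range N, (PowerSeries.X : PowerSeries F) ^ n • z n +
        (PowerSeries.X : PowerSeries F) ^ N • w := by
  let bs := Module.Free.chooseBasis (PowerSeries F) M
  choose C hC using fun i => psum (fun n => bs.repr (z n) i)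
  refine ⟨∑ i, C i • bs i, ?_⟩
  intro N
  choose w hw using fun i => hC i N
  refine ⟨∑ i, w i • bs i, ?_⟩
  have h1 : ∀ n, z n = ∑ i, bs.repr (z n) i • bs i := fun n => (bs.sum_repr (z n)).symm
  have h2 : ∑ n ∈ Finset.range N, (PowerSeries.X : PowerSeries F) ^ n • z n =
      ∑ i, (∑ n ∈ Finset.range N, (PowerSeries.X : PowerSeries F) ^ n * bs.repr (z n) i) •
        bs i := by
    calc ∑ n ∈ Finset.range N, (PowerSeries.X : PowerSeries F) ^ n • z n
        = ∑ n ∈ Finset.range N, ∑ i,
            ((PowerSeries.X : PowerSeries F) ^ n * bs.repr (z n) i) • bs i := by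
          apply Finset.sum_congr rfl
          intro n _
          conv_lhs => rw [h1 n]
          rw [Finset.smul_sum]
          apply Finset.sum_congr rfl
          intro i _
          rw [smul_smul]
      _ = _ := by
          rw [Finset.sum_comm]
          apply Finset.sum_congr rfl
          intro i _
          rw [Finset.sum_smul]
  rw [h2, Finset.smul_sum, ← Finset.sum_add_distrib]
  apply Finset.sum_congr rfl
  intro i _
  rw [smul_smul, ← add_smul, ← hw i]

theorem suc : SucStmt := by
  intro F M _ _ _ _ _ P h1 h2 x hx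
  let X' : (n : ℕ) → {y : M // P (n + 1) y} := fun n =>
    Nat.rec (motive := fun n => {y : M // P (n + 1) y}) ⟨x, hx⟩
      (fun n y => ⟨y.1 + (PowerSeries.X : PowerSeries F) ^ (n + 1) •
        (h2 (n + 1) y.1 (Nat.succ_pos n) y.2).choose,
        (h2 (n + 1) y.1 (Nat.succ_pos n) y.2).choose_spec⟩) n
  let z : ℕ → M := fun n => (h2 (n + 1) (X' n).1 (Nat.succ_pos n) (X' n).2).choose
  have hstep : ∀ n, (X' (n + 1)).1 = (X' n).1 + (PowerSeries.X : PowerSeries F) ^ (n + 1) • z n :=
    fun n => rfl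
  have hX : ∀ N, (X' N).1 = x + (PowerSeries.X : PowerSeries F) •
      ∑ n ∈ Finset.range N, (PowerSeries.X : PowerSeries F) ^ n • z n := by
    intro N
    induction N with
    | zero =>
      rw [Finset.sum_range_zero, smul_zero, add_zero]
      rfl
    | succ N ih =>
      rw [hstep, ih, Finset.sum_range_succ, smul_add, smul_smul, ← pow_succ', add_assoc]
  obtain ⟨Z, hZ⟩ := msum (F := F) z
  refine ⟨Z, ?_⟩
  intro n hn
  obtain ⟨N, rfl⟩ : ∃ N, n = N + 1 := ⟨n - 1, by omega⟩
  obtain ⟨w, hw⟩ := hZ N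
  have h3 := h1 (N + 1) (X' N).1 w (X' N).2
  have h4 : (X' N).1 + (PowerSeries.X : PowerSeries F) ^ (N + 1) • w =
      x + (PowerSeries.X : PowerSeries F) • Z := by
    rw [hw, hX N, smul_add, smul_smul, ← pow_succ', add_assoc]
  rw [h4] at h3
  exact h3

end Pool.Agent.PFC.B1.H44
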